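import Mathlib

/-!
# Four pentagonal-type terms: the small numbers

The sums of three terms below `172000` are the positions of the digits `1` of a binary number; this
number is shifted by the values `f w - f (w - j)`, `j ≤ 3`, to see that all `n` with
`f w ≤ n < f (w + 1)` are sums of four terms.
-/

namespace Pool.Agent.H87.Pent

def f (w : ℕ) : ℕ := w * (5 * w - 1) / 2
def g (y : ℕ) : ℕ := y * (5 * y + 1) / 2

/-- `n` is a sum of four terms -/
def Rep (n : ℕ) : Prop := ∃ w x y z : ℕ, n = f w + f x + g y + g z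

def orS (m : ℕ) (s : ℕ → ℕ) (k : ℕ) : ℕ :=
  Nat.rec 0 (fun k acc => (m <<< s k) ||| acc) k

theorem orS_zero (m : ℕ) (s : ℕ → ℕ) : orS m s 0 = 0 := rfl
theorem orS_succ (m : ℕ) (s : ℕ → ℕ) (k : ℕ) : orS m s (k + 1) = (m <<< s k) ||| orS m s k := rfl

theorem orS_spec (m : ℕ) (s : ℕ → ℕ) (k i : ℕ) (h : (orS m s k).testBit i = true) :
    ∃ j, s j ≤ i ∧ m.testBit (i - s j) = true := by
  induction k with
  | zero => rw [orS_zero, Nat.zero_testBit] at h; exact absurd h (by simp)
  | succ k ih =>
    rw [orS_succ, Nat.testBit_or, Bool.or_eq_true] at h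
    rcases h with h | h
    · rw [Nat.testBit_shiftLeft, Bool.and_eq_true] at h
      exact ⟨k, by simpa using h.1, h.2⟩
    · exact ih h

def m1 : ℕ := orS 1 g 270
def m2 : ℕ := orS m1 g 270
def m3 : ℕ := orS m2 f 270 % 2 ^ 172000

theorem m1_spec {i : ℕ} (h : m1.testBit i = true) : ∃ z, i = g z := by
  obtain ⟨j, h1, h2⟩ := orS_spec _ _ _ _ h
  refine ⟨j, ?_⟩
  rcases Nat.eq_zero_or_pos (i - g j) with h3 | h3
  · omega
  · obtain ⟨k, hk⟩ : ∃ k, i - g j = k + 1 := ⟨i - g j - 1, by omega⟩
    rw [hk, Nat.testBit_succ] at h2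
    simp at h2

theorem m2_spec {i : ℕ} (h : m2.testBit i = true) : ∃ y z, i = g y + g z := by
  obtain ⟨j, h1, h2⟩ := orS_spec _ _ _ _ h
  obtain ⟨z, hz⟩ := m1_spec h2
  exact ⟨j, z, by omega⟩

theorem m3_spec' (N : ℕ) {i : ℕ} (h : (orS m2 f 270 % 2 ^ N).testBit i = true) :
    ∃ x y z, i = f x + g y + g z := by
  rw [Nat.testBit_mod_two_pow, Bool.and_eq_true] at h
  obtain ⟨j, h1, h2⟩ := orS_spec _ _ _ _ h.2
  obtain ⟨y, z, hz⟩ := m2_spec h2
  exact ⟨j, y, z, by omega⟩

theorem m3_spec {i : ℕ} (h : m3.testBit i = true) : ∃ x y z, i = f x + g y + g z :=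
  m3_spec' 172000 h

def check (w : ℕ) : Bool :=
  Nat.beq ((m3 ||| (m3 >>> (f w - f (w - 1))) ||| (m3 >>> (f w - f (w - 2))) |||
    (m3 >>> (f w - f (w - 3)))) % 2 ^ (5 * w + 2)) (2 ^ (5 * w + 2) - 1)

def checkR (a len : ℕ) : Bool := Nat.rec true (fun k acc => check (a + k) && acc) len

theorem checkR_spec (a len : ℕ) (h : checkR a len = true) : ∀ w, a ≤ w → w < a + len → check w = true := by
  induction len with
  | zero => intro w h1 h2; omega
  | succ k ih =>
    have e : checkR a (k + 1) = (check (a + k) && checkR a k) := rfl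
    rw [e, Bool.and_eq_true] at h
    intro w h1 h2
    rcases Nat.lt_or_ge w (a + k) with h3 | h3
    · exact ih h.2 w h1 h3
    · have : w = a + k := by omega
      rw [this]; exact h.1

theorem two_f (w : ℕ) : 2 * f w = w * (5 * w - 1) := by
  unfold f
  apply Nat.mul_div_cancel'
  rcases Nat.even_or_odd w with h | h
  · exact (h.two_dvd).mul_right _
  · obtain ⟨k, rfl⟩ := h
    apply Dvd.dvd.mul_left
    exact ⟨5 * k + 2, by omega⟩

theorem f_succ (w : ℕ) : f (w + 1) = f w + (5 * w + 2) := by
  have h1 := two_f (w + 1)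
  have h2 := two_f w
  have h3 : 5 * (w + 1) - 1 = 5 * w + 4 := by omega
  rw [h3] at h1
  rcases Nat.eq_zero_or_pos w with h | h
  · subst h; rfl
  · have h4 : (5 * w - 1) + 1 = 5 * w := by omega
    have h5 : w * (5 * w - 1) + w = w * (5 * w) := by
      calc w * (5 * w - 1) + w = w * ((5 * w - 1) + 1) := by ring
        _ = w * (5 * w) := by rw [h4]
    nlinarith

theorem f_mono {a b : ℕ} (h : a ≤ b) : f a ≤ f b := by
  induction h with
  | refl => exact le_rfl
  | step _ ih => rw [Nat.succ_eq_add_one, f_succ]; omega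

theorem check_spec {w : ℕ} (h : check w = true) {n : ℕ} (h1 : f w ≤ n) (h2 : n < f (w + 1)) : Rep n := by
  rw [f_succ] at h2
  obtain ⟨r, rfl⟩ : ∃ r, n = f w + r := ⟨n - f w, by omega⟩
  have hr : r < 5 * w + 2 := by omega
  have h3 := Nat.eq_of_beq_eq_true h
  have h4 : (2 ^ (5 * w + 2) - 1).testBit r = true := by
    rw [Nat.testBit_two_pow_sub_one]; simpa using hr
  rw [← h3, Nat.testBit_mod_two_pow, Bool.and_eq_true] at h4
  have h5 := h4.2
  simp only [Nat.testBit_or, Bool.or_eq_true, Nat.testBit_shiftRight] at h5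
  have key : ∀ j, m3.testBit (f w - f (w - j) + r) = true → Rep (f w + r) := by
    intro j hj
    obtain ⟨x, y, z, e⟩ := m3_spec hj
    have := f_mono (show w - j ≤ w by omega)
    exact ⟨w - j, x, y, z, by omega⟩
  rcases h5 with ((h5 | h5) | h5) | h5
  · exact key 0 (by simpa using h5)
  · exact key 1 h5
  · exact key 2 h5
  · exact key 3 h5

theorem c0 : checkR 5 500 = true := by decide +kernel

theorem c1 : checkR 505 500 = true := by decide +kernel

theorem c2 : checkR 1005 500 = true := by decide +kernel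

theorem c3 : checkR 1505 500 = true := by decide +kernel

theorem c4 : checkR 2005 500 = true := by decide +kernel

theorem c5 : checkR 2505 500 = true := by decide +kernel

theorem c6 : checkR 3005 500 = true := by decide +kernel

theorem c7 : checkR 3505 500 = true := by decide +kernel

theorem c8 : checkR 4005 500 = true := by decide +kernel

theorem c9 : checkR 4505 500 = true := by decide +kernel

theorem c10 : checkR 5005 500 = true := by decide +kernel

theorem c11 : checkR 5505 500 = true := by decide +kernel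

theorem c12 : checkR 6005 500 = true := by decide +kernel

theorem c13 : checkR 6505 500 = true := by decide +kernel

theorem c14 : checkR 7005 500 = true := by decide +kernel

theorem c15 : checkR 7505 500 = true := by decide +kernel

theorem c16 : checkR 8005 500 = true := by decide +kernel

theorem check_all {w : ℕ} (h1 : 5 ≤ w) (h2 : w < 8505) : check w = true := by
  rcases Nat.lt_or_ge w 505 with h | h
  · exact checkR_spec _ _ c0 w (by omega) (by omega)
  rcases Nat.lt_or_ge w 1005 with h | h
  · exact checkR_spec _ _ c1 w (by omega) (by omega)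
  rcases Nat.lt_or_ge w 1505 with h | h
  · exact checkR_spec _ _ c2 w (by omega) (by omega)
  rcases Nat.lt_or_ge w 2005 with h | h
  · exact checkR_spec _ _ c3 w (by omega) (by omega)
  rcases Nat.lt_or_ge w 2505 with h | h
  · exact checkR_spec _ _ c4 w (by omega) (by omega)
  rcases Nat.lt_or_ge w 3005 with h | h
  · exact checkR_spec _ _ c5 w (by omega) (by omega)
  rcases Nat.lt_or_ge w 3505 with h | h
  · exact checkR_spec _ _ c6 w (by omega) (by omega)
  rcases Nat.lt_or_ge w 4005 with h | h
  · exact checkR_spec _ _ c7 w (by omega) (by omega)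
  rcases Nat.lt_or_ge w 4505 with h | h
  · exact checkR_spec _ _ c8 w (by omega) (by omega)
  rcases Nat.lt_or_ge w 5005 with h | h
  · exact checkR_spec _ _ c9 w (by omega) (by omega)
  rcases Nat.lt_or_ge w 5505 with h | h
  · exact checkR_spec _ _ c10 w (by omega) (by omega)
  rcases Nat.lt_or_ge w 6005 with h | h
  · exact checkR_spec _ _ c11 w (by omega) (by omega)
  rcases Nat.lt_or_ge w 6505 with h | h
  · exact checkR_spec _ _ c12 w (by omega) (by omega)
  rcases Nat.lt_or_ge w 7005 with h | h
  · exact checkR_spec _ _ c13 w (by omega) (by omega)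
  rcases Nat.lt_or_ge w 7505 with h | h
  · exact checkR_spec _ _ c14 w (by omega) (by omega)
  rcases Nat.lt_or_ge w 8005 with h | h
  · exact checkR_spec _ _ c15 w (by omega) (by omega)
  rcases Nat.lt_or_ge w 8505 with h | h
  · exact checkR_spec _ _ c16 w (by omega) (by omega)
  · omega

theorem rep_small : ∀ n < 60, n ≠ 1 → n ≠ 19 → ∃ w < 6, ∃ x < 6, ∃ y < 6, ∃ z < 6, n = f w + f x + g y + g z := by
  decide +kernel

theorem not_rep_one : ¬ Rep 1 := by
  rintro ⟨w, x, y, z, h⟩
  have hf : ∀ w, 1 ≤ w → 2 ≤ f w := fun w hw => f_mono hw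
  have hg : ∀ y, 1 ≤ y → 3 ≤ g y := by
    intro y hy
    unfold g
    have : 6 ≤ y * (5 * y + 1) := by nlinarith
    omega
  rcases Nat.eq_zero_or_pos w with h1 | h1 <;> rcases Nat.eq_zero_or_pos x with h2 | h2 <;>
    rcases Nat.eq_zero_or_pos y with h3 | h3 <;> rcases Nat.eq_zero_or_pos z with h4 | h4
  all_goals
    first
    | (subst h1; subst h2; subst h3; subst h4; simp [f, g] at h; done)
    | (have a1 := hf w; have a2 := hf x; have a3 := hg y; have a4 := hg z; omega)

end Pool.Agent.H87.Pent
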