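import Pool.Agent.H87.Pent.Main

/-!
# Four pentagonal-type terms: the matrices
-/

namespace Pool.Agent.H87.Pent

def L1 : List Wit :=
  [⟨-1, -1, 1, 1, -3, 3, 3, -3, -3, 3, -3, 3, 3, 3, 3, 3⟩,
   ⟨-1, -1, 1, 1, -1, -1, 3, -5, 1, -5, -3, -1, -5, 1, -3, -1⟩]

def L3 : List Wit :=
  [⟨-1, -1, 1, 3, -7, -3, 5, -5, 7, -3, 7, -1, 1, -9, -5, -1⟩,
   ⟨-1, -1, 1, 3, 3, 7, 7, 1, 3, 5, -7, 5, 9, -5, 1, 1⟩]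

def L5 : List Wit :=
  [⟨-1, -3, 1, 3, 1, 1, 13, -3, 7, 7, 1, 9, 11, -7, -1, -3⟩,
   ⟨-1, -3, 1, 3, -11, -3, 1, -7, 5, -3, 11, -5, 5, -9, -7, -5⟩,
   ⟨-1, -3, 1, 3, -11, -3, 1, -7, -5, 3, -11, 5, -5, 9, 7, 5⟩,
   ⟨-1, -3, 1, 3, -11, 5, -5, 3, -7, -5, 5, -9, 1, -7, -11, -3⟩,
   ⟨-1, -3, 1, 3, -11, 5, -5, 3, 1, -7, -11, -3, 7, 5, -5, 9⟩,
   ⟨-1, -3, 1, 3, 11, -5, 5, -3, 7, 5, -5, 9, 1, -7, -11, -3⟩,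
   ⟨-1, -3, 1, 3, 11, 3, -1, 7, -5, 9, 7, 5, -5, 3, -11, 5⟩,
   ⟨-1, -3, 1, 3, 11, 3, -1, 7, 5, -3, 11, -5, -5, 9, 7, 5⟩,
   ⟨-1, -3, 1, 3, 11, 3, -1, 7, -5, 3, -11, 5, 5, -9, -7, -5⟩,
   ⟨-1, -3, 1, 3, -9, 3, 9, -3, 9, -3, 9, -3, -3, -9, -3, -9⟩,
   ⟨-1, -3, 1, 3, -9, 3, 9, -3, -9, 3, -9, 3, 3, 9, 3, 9⟩,
   ⟨-1, -3, 1, 3, -5, -5, 7, -9, 11, -7, -1, -3, -5, -5, -11, -3⟩,
   ⟨-1, -3, 1, 3, -11, -3, -5, -5, 1, 3, -11, 7, -7, 9, 5, 5⟩,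
   ⟨-1, -3, 1, 3, -1, 7, -7, 9, -13, 1, -1, -3, 1, -7, -11, -3⟩,
   ⟨-1, -3, 1, 3, 13, -1, 1, 3, 1, -7, -11, -3, 1, -7, 7, -9⟩]

def L15 : List Wit :=
  [⟨-1, -3, 1, 7, -11, -13, 13, -9, 7, 11, 19, 3, 19, -13, 1, -3⟩,
   ⟨-1, -3, 1, 7, -19, -7, 9, -7, 1, -17, -15, -5, -13, 11, -15, 5⟩,
   ⟨-1, -3, 1, 7, -15, 15, 9, 3, -9, 3, -21, 3, 15, 15, -3, 9⟩,
   ⟨-1, -3, 1, 7, 9, 17, 11, 7, 3, -11, 19, -7, -21, 7, 7, -1⟩,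
   ⟨-1, -3, 1, 7, 21, 3, 9, 3, -9, 3, 21, -3, -3, 21, -3, 9⟩,
   ⟨-1, -3, 1, 7, 21, 3, 9, 3, 3, -21, 3, -9, -9, 3, 21, -3⟩,
   ⟨-1, -3, 1, 7, 21, 3, 9, 3, -3, 21, -3, 9, 9, -3, -21, 3⟩,
   ⟨-1, -3, 1, 7, 21, 3, 9, 3, 9, -3, -21, 3, 3, -21, 3, -9⟩,
   ⟨-1, -3, 1, 7, -13, 11, -15, 5, -1, 17, 15, 5, -19, -7, 9, -7⟩,
   ⟨-1, -3, 1, 7, 21, -7, -7, 1, 9, 17, 11, 7, -3, 11, -19, 7⟩,
   ⟨-1, -3, 1, 7, 9, -3, -21, 3, 3, -21, 3, -9, 21, 3, 9, 3⟩,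
   ⟨-1, -3, 1, 7, 3, 19, 11, 7, 9, 7, -19, 7, 21, -7, 7, -1⟩,
   ⟨-1, -3, 1, 7, 17, 1, -15, 5, -11, 17, -9, 7, -11, -13, -15, -5⟩,
   ⟨-1, -3, 1, 7, 9, 7, -19, 7, 3, 19, 11, 7, -21, 7, -7, 1⟩,
   ⟨-1, -3, 1, 7, 9, 7, -19, 7, -3, -19, -11, -7, 21, -7, 7, -1⟩,
   ⟨-1, -3, 1, 7, 9, 7, -19, 7, -21, 7, -7, 1, -3, -19, -11, -7⟩,
   ⟨-1, -3, 1, 7, -11, 17, -9, 7, 11, 13, 15, 5, -17, -1, 15, -5⟩,
   ⟨-1, -3, 1, 7, -11, 17, -9, 7, -17, -1, 15, -5, -11, -13, -15, -5⟩,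
   ⟨-1, -3, 1, 7, -11, 17, -9, 7, 17, 1, -15, 5, 11, 13, 15, 5⟩,
   ⟨-1, -3, 1, 7, -21, 7, -7, 1, 9, 7, -19, 7, 3, 19, 11, 7⟩,
   ⟨-5, -5, 1, 3, 9, -17, -1, -13, 3, 1, 23, -1, 15, -5, -1, 17⟩]

theorem val1 : ∀ w ∈ L1, w.val 4 := by decide +kernel
theorem val3 : ∀ w ∈ L3, w.val 12 := by decide +kernel
theorem val5 : ∀ w ∈ L5, w.val 20 := by decide +kernel
theorem val15 : ∀ w ∈ L15, w.val 60 := by decide +kernel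

/-- All residues of size at most `K` are hit. -/
def Cov (L : List Wit) (D h : ℤ) (K M r : ℕ) : Prop :=
  ∀ a b c : Fin (K + 1), ((a : ℕ) ^ 2 + (b : ℕ) ^ 2 + (c : ℕ) ^ 2) % M = r → (a : ℕ) ≤ b → (b : ℕ) ≤ c →
    ∃ w ∈ L, w.hit D h (a : ℕ) (b : ℕ) (c : ℕ)

instance (L : List Wit) (D h : ℤ) (K M r : ℕ) : Decidable (Cov L D h K M r) := by
  unfold Cov; infer_instance

theorem cov1 : Cov L1 1 0 2 5 4 := by decide +kernel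
theorem cov3 : Cov L3 1 1 2 5 4 := by decide +kernel
theorem cov5 : Cov L5 5 5 12 25 20 := by decide +kernel
theorem cov15 : Cov L15 5 2 12 25 9 := by decide +kernel

theorem abs_res (K : ℕ) (x : ℤ) : ∃ (x' : ℤ) (a : ℕ), (x' = x ∨ x' = -x) ∧ a < K + 1 ∧
    ((2 * K + 1 : ℕ) : ℤ) ∣ x' - a := by
  have hM : (0 : ℤ) < ((2 * K + 1 : ℕ) : ℤ) := by positivity
  have h1 := Int.emod_nonneg x hM.ne'
  have h2 := Int.emod_lt_of_pos x hM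
  have h3 := Int.mul_ediv_add_emod x ((2 * K + 1 : ℕ) : ℤ)
  rcases lt_or_ge (x % ((2 * K + 1 : ℕ) : ℤ)) (K + 1) with h | h
  · refine ⟨x, (x % ((2 * K + 1 : ℕ) : ℤ)).toNat, Or.inl rfl, by omega, ?_⟩
    rw [Int.toNat_of_nonneg h1]
    exact ⟨x / ((2 * K + 1 : ℕ) : ℤ), by linarith⟩
  · refine ⟨-x, (((2 * K + 1 : ℕ) : ℤ) - x % ((2 * K + 1 : ℕ) : ℤ)).toNat, Or.inr rfl, by push_cast at *; omega, ?_⟩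
    rw [Int.toNat_of_nonneg (by linarith)]
    refine ⟨-(x / ((2 * K + 1 : ℕ) : ℤ)) - 1, ?_⟩
    have e : ((2 * K + 1 : ℕ) : ℤ) * (-(x / ((2 * K + 1 : ℕ) : ℤ)) - 1) =
      -(((2 * K + 1 : ℕ) : ℤ) * (x / ((2 * K + 1 : ℕ) : ℤ))) - ((2 * K + 1 : ℕ) : ℤ) := by ring
    rw [e]
    linarith

/-- Sorting and signs. -/
theorem normal (K : ℕ) (x y z : ℤ) : ∃ (x' y' z' : ℤ) (a b c : ℕ),
    x' ^ 2 + y' ^ 2 + z' ^ 2 = x ^ 2 + y ^ 2 + z ^ 2 ∧ a < K + 1 ∧ b < K + 1 ∧ c < K + 1 ∧ a ≤ b ∧ b ≤ c ∧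
    ((2 * K + 1 : ℕ) : ℤ) ∣ x' - a ∧ ((2 * K + 1 : ℕ) : ℤ) ∣ y' - b ∧ ((2 * K + 1 : ℕ) : ℤ) ∣ z' - c := by
  obtain ⟨x', a, hx, ha, ha'⟩ := abs_res K x
  obtain ⟨y', b, hy, hb, hb'⟩ := abs_res K y
  obtain ⟨z', c, hz, hc, hc'⟩ := abs_res K z
  have ex : x' ^ 2 = x ^ 2 := by rcases hx with rfl | rfl <;> ring
  have ey : y' ^ 2 = y ^ 2 := by rcases hy with rfl | rfl <;> ring
  have ez : z' ^ 2 = z ^ 2 := by rcases hz with rfl | rfl <;> ring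
  rcases le_total a b with h1 | h1 <;> rcases le_total b c with h2 | h2 <;>
    rcases le_total a c with h3 | h3
  · exact ⟨x', y', z', a, b, c, by linarith, ha, hb, hc, h1, h2, ha', hb', hc'⟩
  · exact ⟨x', y', z', a, b, c, by linarith, ha, hb, hc, h1, h2, ha', hb', hc'⟩
  · exact ⟨x', z', y', a, c, b, by linarith, ha, hc, hb, h3, h2, ha', hc', hb'⟩
  · exact ⟨z', x', y', c, a, b, by linarith, hc, ha, hb, h3, h1, hc', ha', hb'⟩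
  · exact ⟨y', x', z', b, a, c, by linarith, hb, ha, hc, h1, h3, hb', ha', hc'⟩
  · exact ⟨y', z', x', b, c, a, by linarith, hb, hc, ha, h2, h3, hb', hc', ha'⟩
  · exact ⟨z', y', x', c, b, a, by linarith, hc, hb, ha, h2, h1, hc', hb', ha'⟩
  · exact ⟨z', y', x', c, b, a, by linarith, hc, hb, ha, h2, h1, hc', hb', ha'⟩

theorem hit_lift {w : Wit} {D h h' x x' y y' z z' : ℤ} (hh : (5 * D) ∣ h' - h) (hx : (5 * D) ∣ x' - x)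
    (hy : (5 * D) ∣ y' - y) (hz : (5 * D) ∣ z' - z) (H : w.hit D h x y z) : w.hit D h' x' y' z' := by
  have key : ∀ a X Y Z : ℤ, (5 * D) ∣ (h * a + x * X + y * Y + z * Z - D) →
      (5 * D) ∣ (h' * a + x' * X + y' * Y + z' * Z - D) := by
    intro a X Y Z hd
    have e : h' * a + x' * X + y' * Y + z' * Z - D = (h * a + x * X + y * Y + z * Z - D) +
      ((h' - h) * a + (x' - x) * X + (y' - y) * Y + (z' - z) * Z) := by ring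
    rw [e]
    exact dvd_add hd (dvd_add (dvd_add (dvd_add (hh.mul_right _) (hx.mul_right _)) (hy.mul_right _)) (hz.mul_right _))
  exact ⟨key _ _ _ _ H.1, key _ _ _ _ H.2.1, key _ _ _ _ H.2.2.1, key _ _ _ _ H.2.2.2⟩

/-- The main step. `K = 2` and `D = 1`, or `K = 12` and `D = 5`. -/
theorem step {L : List Wit} {q D h₀ : ℤ} {K r : ℕ} {h ν R n : ℕ} (hK : 5 * D = ((2 * K + 1 : ℕ) : ℤ))
    (hDo : D % 2 = 1) (hD : 0 < D) (hval : ∀ w ∈ L, w.val q) (hcov : Cov L D h₀ K (2 * K + 1) r)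
    (hh : (5 * D) ∣ (h : ℤ) - h₀) (hpos : 0 < h) (hν : ν = h ^ 2 + 9 * R) (hR : R % 4 = 1 ∨ R % 4 = 2)
    (hRr : R % (2 * K + 1) = r) (hνo : ν % 2 = 1) (hbig : (ν : ℤ) * (q - 1) < q * (h : ℤ) ^ 2)
    (hq : q * (ν : ℤ) = (40 * n + 4) * D ^ 2) : Rep n := by
  obtain ⟨x, y, z, hxyz⟩ : ∃ x y z : ℤ, x ^ 2 + y ^ 2 + z ^ 2 = R := by
    rcases hR with h | h
    · exact three_squares_one h
    · exact three_squares_two h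
  obtain ⟨x', y', z', a, b, c, e, ha, hb, hc, hab, hbc, dx, dy, dz⟩ := normal K x y z
  rw [hxyz] at e
  have hres : (a ^ 2 + b ^ 2 + c ^ 2) % (2 * K + 1) = r := by
    rw [← hRr]
    apply Nat.ModEq.symm
    rw [← Int.natCast_modEq_iff]
    apply Int.ModEq.symm
    rw [Int.modEq_iff_dvd]
    push_cast at dx dy dz ⊢
    rw [← e]
    have e2 : x' ^ 2 + y' ^ 2 + z' ^ 2 - ((a : ℤ) ^ 2 + b ^ 2 + c ^ 2) =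
      (x' - a) * (x' + a) + (y' - b) * (y' + b) + (z' - c) * (z' + c) := by ring
    rw [e2]
    exact dvd_add (dvd_add (dx.mul_right _) (dy.mul_right _)) (dz.mul_right _)
  obtain ⟨w, hw, hit⟩ := hcov ⟨a, ha⟩ ⟨b, hb⟩ ⟨c, hc⟩ hres hab hbc
  rw [← hK] at dx dy dz
  refine of_hit (hval w hw) hD hDo (h := h) (x := x') (y := y') (z := z') (ν := ν)
    (by exact_mod_cast hpos) ?_ (by exact_mod_cast hνo) hbig hq (hit_lift hh dx dy dz hit)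
  rw [hν, e]
  push_cast
  ring

/-- The choice of `h`. -/
theorem exists_h {ν q : ℕ} (r : ℕ) (hr : r < 450) (hq : 1 ≤ q) (hν : (900 * q + 1) ^ 2 ≤ ν) :
    ∃ h : ℕ, h % 450 = r ∧ 0 < h ∧ h ^ 2 ≤ ν ∧ (ν : ℤ) * ((q : ℤ) - 1) < (q : ℤ) * (h : ℤ) ^ 2 := by
  set s := Nat.sqrt ν with hs
  have h1 : 900 * q + 1 ≤ s := by rw [hs]; exact Nat.le_sqrt'.2 hν
  have h2 : s ^ 2 ≤ ν := Nat.sqrt_le' ν
  have h3 : ν < (s + 1) ^ 2 := Nat.lt_succ_sqrt' ν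
  obtain ⟨h, hh1, hh2, hh3⟩ : ∃ h : ℕ, h ≤ s ∧ s < h + 450 ∧ h % 450 = r :=
    ⟨s - (s + 450 - r) % 450, by omega, by omega, by omega⟩
  refine ⟨h, hh3, by omega, (Nat.pow_le_pow_left hh1 2).trans h2, ?_⟩
  obtain ⟨j, hj⟩ : ∃ j : ℤ, (s : ℤ) = h + j ∧ 0 ≤ j ∧ j ≤ 449 := ⟨s - h, by omega⟩
  obtain ⟨e, hj0, hj1⟩ := hj
  have h3' : (ν : ℤ) ≤ (s : ℤ) ^ 2 + 2 * s := by
    have : (ν : ℤ) < ((s : ℤ) + 1) ^ 2 := by exact_mod_cast h3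
    nlinarith
  have h1' : 900 * (q : ℤ) + 1 ≤ s := by exact_mod_cast h1
  have hq' : (1 : ℤ) ≤ q := by exact_mod_cast hq
  have e2 : (h : ℤ) = s - j := by linarith
  rw [e2]
  have a1 : (ν : ℤ) * ((q : ℤ) - 1) ≤ ((s : ℤ) ^ 2 + 2 * s) * ((q : ℤ) - 1) :=
    mul_le_mul_of_nonneg_right h3' (by linarith)
  have a2 : (q : ℤ) * ((s : ℤ) - 449) ^ 2 ≤ (q : ℤ) * ((s : ℤ) - j) ^ 2 := by
    apply mul_le_mul_of_nonneg_left _ (by linarith)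
    apply pow_le_pow_left₀ (by linarith) (by linarith)
  have a3 : ((s : ℤ) ^ 2 + 2 * s) * ((q : ℤ) - 1) < (q : ℤ) * ((s : ℤ) - 449) ^ 2 := by
    have b1 : (900 * (q : ℤ) + 1) * s ≤ s * s := mul_le_mul_of_nonneg_right h1' (by linarith)
    nlinarith
  linarith

theorem crt (h25 h9 p : ℕ) (a : h25 < 25) (b : h9 < 9) (c : p < 2) :
    ∃ r < 450, r % 25 = h25 ∧ r % 9 = h9 ∧ r % 2 = p := by
  refine ⟨(126 * h25 + 100 * h9 + 225 * p) % 450, by omega, by omega, by omega, by omega⟩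

theorem root9 (ν : ℕ) (h : ν % 9 = 0 ∨ ν % 3 = 1) : ∃ h9 < 9, (h9 ^ 2) % 9 = ν % 9 := by
  have : ν % 9 = 0 ∨ ν % 9 = 1 ∨ ν % 9 = 4 ∨ ν % 9 = 7 := by omega
  rcases this with h | h | h | h <;> rw [h]
  · exact ⟨0, by norm_num, by norm_num⟩
  · exact ⟨1, by norm_num, by norm_num⟩
  · exact ⟨2, by norm_num, by norm_num⟩
  · exact ⟨4, by norm_num, by norm_num⟩

/-- From `ν` and the residue of `h` modulo `25` to `h` and `R`. -/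
theorem exists_hR {ν q : ℕ} (h25 : ℕ) (hh : h25 < 25) (hq : 1 ≤ q) (hν : (900 * q + 1) ^ 2 ≤ ν)
    (h9 : ν % 9 = 0 ∨ ν % 3 = 1) (hodd : ν % 2 = 1) :
    ∃ h R : ℕ, h % 25 = h25 ∧ 0 < h ∧ ν = h ^ 2 + 9 * R ∧ (R % 4 = 1 ∨ R % 4 = 2) ∧
      (ν : ℤ) * ((q : ℤ) - 1) < (q : ℤ) * (h : ℤ) ^ 2 := by
  obtain ⟨t, ht, ht2⟩ := root9 ν h9
  obtain ⟨p, hp, hp2⟩ : ∃ p < 2, (ν % 4 = 1 ∧ p = 0) ∨ (ν % 4 = 3 ∧ p = 1) := by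
    rcases (by omega : ν % 4 = 1 ∨ ν % 4 = 3) with h | h
    · exact ⟨0, by norm_num, Or.inl ⟨h, rfl⟩⟩
    · exact ⟨1, by norm_num, Or.inr ⟨h, rfl⟩⟩
  obtain ⟨r, hr, r1, r2, r3⟩ := crt h25 t p hh ht hp
  obtain ⟨h, e1, e2, e3, e4⟩ := exists_h r hr hq hν
  have h9' : 9 ∣ ν - h ^ 2 := by
    have : h ^ 2 ≡ ν [MOD 9] := by
      have h1 : h % 9 = t := by omega
      show h ^ 2 % 9 = ν % 9
      rw [Nat.pow_mod, h1, ht2]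
    exact (Nat.modEq_iff_dvd' e3).1 this
  obtain ⟨R, hR⟩ := h9'
  refine ⟨h, R, by omega, e2, by omega, ?_, e4⟩
  have hpar : h % 2 = p := by omega
  rcases hp2 with ⟨h1, h2⟩ | ⟨h1, h2⟩
  · obtain ⟨u, rfl⟩ : ∃ u, h = 2 * u := ⟨h / 2, by omega⟩
    have : (2 * u) ^ 2 = 4 * u ^ 2 := by ring
    rw [this] at hR e3
    omega
  · obtain ⟨u, rfl⟩ : ∃ u, h = 2 * u + 1 := ⟨h / 2, by omega⟩
    have : (2 * u + 1) ^ 2 = 4 * (u ^ 2 + u) + 1 := by ring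
    rw [this] at hR e3
    omega

end Pool.Agent.H87.Pent
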