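import Pool.Agent.H87.Pent.Cov

/-!
# Four pentagonal-type terms: all numbers
-/

namespace Pool.Agent.H87.Pent

theorem sq_mod (h : ℕ) (t : ℕ) (e : h % 25 = t) : h ^ 2 % 25 = t ^ 2 % 25 := by
  rw [Nat.pow_mod, e]

theorem rep_large (n : ℕ) (hn : 180000000 ≤ n) : Rep n := by
  by_cases hA : (10 * n + 1) % 9 = 0 ∨ (10 * n + 1) % 3 = 1
  · obtain ⟨h, R, h1, h2, h3, h4, h5⟩ := exists_hR (ν := 10 * n + 1) (q := 4) 0 (by norm_num)
      (by norm_num) (by norm_num; omega) hA (by omega)
    have hsq := sq_mod h 0 h1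
    exact step (L := L1) (q := 4) (D := 1) (h₀ := 0) (K := 2) (r := 4) (by norm_num) (by norm_num)
      (by norm_num) val1 cov1 (by norm_num; omega) h2 h3 h4 (by omega) (by omega) (by exact_mod_cast h5)
      (by push_cast; ring)
  · by_cases hB : (10 * n + 1) % 3 = 2
    · obtain ⟨h, R, h1, h2, h3, h4, h5⟩ := exists_hR (ν := 5 * (10 * n + 1)) (q := 20) 5 (by norm_num)
        (by norm_num) (by norm_num; omega) (Or.inr (by omega)) (by omega)
      have hsq := sq_mod h 5 h1
      exact step (L := L5) (q := 20) (D := 5) (h₀ := 5) (K := 12) (r := 20) (by norm_num) (by norm_num)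
        (by norm_num) val5 cov5 (by norm_num; omega) h2 h3 h4 (by omega) (by omega) (by exact_mod_cast h5)
        (by push_cast; ring)
    · obtain ⟨m, hm⟩ : ∃ m, 10 * n + 1 = 3 * m := ⟨(10 * n + 1) / 3, by omega⟩
      have hm' : (10 * (n : ℤ) + 1) = 3 * m := by exact_mod_cast hm
      by_cases hC : m % 3 = 1
      · obtain ⟨h, R, h1, h2, h3, h4, h5⟩ := exists_hR (ν := m) (q := 12) 1 (by norm_num)
          (by norm_num) (by norm_num; omega) (Or.inr (by omega)) (by omega)
        have hsq := sq_mod h 1 h1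
        exact step (L := L3) (q := 12) (D := 1) (h₀ := 1) (K := 2) (r := 4) (by norm_num) (by norm_num)
          (by norm_num) val3 cov3 (by norm_num; omega) h2 h3 h4 (by omega) (by omega)
          (by exact_mod_cast h5) (by linarith)
      · obtain ⟨h, R, h1, h2, h3, h4, h5⟩ := exists_hR (ν := 5 * m) (q := 60) 2 (by norm_num)
          (by norm_num) (by norm_num; omega) (Or.inr (by omega)) (by omega)
        have hsq := sq_mod h 2 h1
        exact step (L := L15) (q := 60) (D := 5) (h₀ := 2) (K := 12) (r := 9) (by norm_num) (by norm_num)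
          (by norm_num) val15 cov15 (by norm_num; omega) h2 h3 h4 (by omega) (by omega)
          (by exact_mod_cast h5) (by push_cast; linarith)

theorem rep_mid (n : ℕ) (h1 : 60 ≤ n) (h2 : n < 180000000) : Rep n := by
  have h3 : ∃ w, n < f w := ⟨8505, lt_of_lt_of_le h2 (by decide)⟩
  classical
  obtain ⟨h4, h5⟩ := Nat.find_spec h3, fun k (hk : k < Nat.find h3) => Nat.find_min h3 hk
  set w := Nat.find h3 with hw
  have h6 := Nat.find_spec h3
  have h7 : w ≤ 8505 := Nat.find_min' h3 (lt_of_lt_of_le h2 (by decide))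
  have h8 : 5 < w := by
    by_contra hc
    have := f_mono (show w ≤ 5 by omega)
    have h9 : f 5 = 60 := by decide
    rw [← hw] at h6
    omega
  have h10 : f (w - 1) ≤ n := by
    have := Nat.find_min h3 (show w - 1 < Nat.find h3 by omega)
    omega
  refine check_spec (check_all (w := w - 1) (by omega) (by omega)) h10 ?_
  have : w - 1 + 1 = w := by omega
  rw [this]
  exact h6

theorem g_mono {a b : ℕ} (h : a ≤ b) : g a ≤ g b := by
  unfold g
  apply Nat.div_le_div_right
  nlinarith

theorem not_rep {n : ℕ} (hn : n < 21) (h : ∀ w < 3, ∀ x < 3, ∀ y < 3, ∀ z < 3, n ≠ f w + f x + g y + g z) :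
    ¬ Rep n := by
  rintro ⟨w, x, y, z, e⟩
  have hf : ∀ w, 3 ≤ w → 21 ≤ f w := fun w hw => f_mono hw
  have hg : ∀ w, 3 ≤ w → 24 ≤ g w := fun w hw => g_mono hw
  refine h w ?_ x ?_ y ?_ z ?_ e
  · by_contra hc; have := hf w (by omega); omega
  · by_contra hc; have := hf x (by omega); omega
  · by_contra hc; have := hg y (by omega); omega
  · by_contra hc; have := hg z (by omega); omega

/-- The represented numbers are all natural numbers except `1` and `19`. -/
theorem rep_iff (n : ℕ) : Rep n ↔ n ≠ 1 ∧ n ≠ 19 := by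
  constructor
  · intro h
    constructor
    · rintro rfl
      exact not_rep (by norm_num) (by decide +kernel) h
    · rintro rfl
      exact not_rep (by norm_num) (by decide +kernel) h
  · rintro ⟨h1, h2⟩
    rcases Nat.lt_or_ge n 60 with h | h
    · obtain ⟨w, -, x, -, y, -, z, -, e⟩ := rep_small n h h1 h2
      exact ⟨w, x, y, z, e⟩
    · rcases Nat.lt_or_ge n 180000000 with h' | h'
      · exact rep_mid n h h'
      · exact rep_large n h'

end Pool.Agent.H87.Pent
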