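import Pool.Agent.H87.ThreeSq
import Pool.Agent.H87.Pent.Base

/-!
# Four pentagonal-type terms: the large numbers
-/

namespace Pool.Agent.H87.Pent

/-- An integer matrix with orthogonal columns `a`, `x`, `y`, `z`. -/
structure Wit where
  a0 : ℤ
  a1 : ℤ
  a2 : ℤ
  a3 : ℤ
  x0 : ℤ
  x1 : ℤ
  x2 : ℤ
  x3 : ℤ
  y0 : ℤ
  y1 : ℤ
  y2 : ℤ
  y3 : ℤ
  z0 : ℤ
  z1 : ℤ
  z2 : ℤ
  z3 : ℤ

/-- The columns are orthogonal of squared lengths `q`, `9 q`, `9 q`, `9 q`, all entries are odd, and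
the first column has the signs `-, -, +, +`. -/
def Wit.val (w : Wit) (q : ℤ) : Prop :=
  (w.a0 ^ 2 + w.a1 ^ 2 + w.a2 ^ 2 + w.a3 ^ 2 = q ∧
  w.x0 ^ 2 + w.x1 ^ 2 + w.x2 ^ 2 + w.x3 ^ 2 = 9 * q ∧
  w.y0 ^ 2 + w.y1 ^ 2 + w.y2 ^ 2 + w.y3 ^ 2 = 9 * q ∧
  w.z0 ^ 2 + w.z1 ^ 2 + w.z2 ^ 2 + w.z3 ^ 2 = 9 * q) ∧
  (w.a0 * w.x0 + w.a1 * w.x1 + w.a2 * w.x2 + w.a3 * w.x3 = 0 ∧
  w.a0 * w.y0 + w.a1 * w.y1 + w.a2 * w.y2 + w.a3 * w.y3 = 0 ∧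
  w.a0 * w.z0 + w.a1 * w.z1 + w.a2 * w.z2 + w.a3 * w.z3 = 0 ∧
  w.x0 * w.y0 + w.x1 * w.y1 + w.x2 * w.y2 + w.x3 * w.y3 = 0 ∧
  w.x0 * w.z0 + w.x1 * w.z1 + w.x2 * w.z2 + w.x3 * w.z3 = 0 ∧
  w.y0 * w.z0 + w.y1 * w.z1 + w.y2 * w.z2 + w.y3 * w.z3 = 0) ∧
  (w.x0 ^ 2 + w.y0 ^ 2 + w.z0 ^ 2 = 9 * (q - w.a0 ^ 2) ∧
  w.x1 ^ 2 + w.y1 ^ 2 + w.z1 ^ 2 = 9 * (q - w.a1 ^ 2) ∧
  w.x2 ^ 2 + w.y2 ^ 2 + w.z2 ^ 2 = 9 * (q - w.a2 ^ 2) ∧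
  w.x3 ^ 2 + w.y3 ^ 2 + w.z3 ^ 2 = 9 * (q - w.a3 ^ 2)) ∧
  (w.a0 ≤ -1 ∧ w.a1 ≤ -1 ∧ 1 ≤ w.a2 ∧ 1 ≤ w.a3) ∧
  (w.a0 % 2 = 1 ∧ w.x0 % 2 = 1 ∧ w.y0 % 2 = 1 ∧ w.z0 % 2 = 1) ∧
  (w.a1 % 2 = 1 ∧ w.x1 % 2 = 1 ∧ w.y1 % 2 = 1 ∧ w.z1 % 2 = 1) ∧
  (w.a2 % 2 = 1 ∧ w.x2 % 2 = 1 ∧ w.y2 % 2 = 1 ∧ w.z2 % 2 = 1) ∧
  (w.a3 % 2 = 1 ∧ w.x3 % 2 = 1 ∧ w.y3 % 2 = 1 ∧ w.z3 % 2 = 1)

instance (w : Wit) (q : ℤ) : Decidable (w.val q) := by unfold Wit.val; infer_instance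

/-- The vector `h a + x X + y Y + z Z` is `D (1, 1, 1, 1)` modulo `5 D`. -/
def Wit.hit (w : Wit) (D h x y z : ℤ) : Prop :=
  (5 * D) ∣ (h * w.a0 + x * w.x0 + y * w.y0 + z * w.z0 - D) ∧
  (5 * D) ∣ (h * w.a1 + x * w.x1 + y * w.y1 + z * w.z1 - D) ∧
  (5 * D) ∣ (h * w.a2 + x * w.x2 + y * w.y2 + z * w.z2 - D) ∧
  (5 * D) ∣ (h * w.a3 + x * w.x3 + y * w.y3 + z * w.z3 - D)

instance (w : Wit) (D h x y z : ℤ) : Decidable (w.hit D h x y z) := by unfold Wit.hit; infer_instance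

/-- one coordinate -/
theorem coord {D h x y z a X Y Z q ν : ℤ} (hD : 0 < D) (hDo : D % 2 = 1) (hh : 0 < h)
    (hν : ν = h ^ 2 + 9 * (x ^ 2 + y ^ 2 + z ^ 2)) (hνo : ν % 2 = 1)
    (hbig : ν * (q - 1) < q * h ^ 2) (hrow : X ^ 2 + Y ^ 2 + Z ^ 2 = 9 * (q - a ^ 2))
    (ha : 1 ≤ a ^ 2) (ho : a % 2 = 1 ∧ X % 2 = 1 ∧ Y % 2 = 1 ∧ Z % 2 = 1)
    (hit : (5 * D) ∣ (h * a + x * X + y * Y + z * Z - D)) :
    ∃ s : ℤ, D * s = h * a + x * X + y * Y + z * Z ∧ s % 10 = 1 ∧ 0 < a * s := by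
  obtain ⟨k, hk⟩ := hit
  refine ⟨1 + 5 * k, by linarith, ?_, ?_⟩
  · have h5 : (1 + 5 * k) % 2 = 1 := by
      have e : D * (1 + 5 * k) = h * a + x * X + y * Y + z * Z := by linarith
      have h1 : (h + x + y + z) % 2 = 1 := by
        have h2 : (h ^ 2 + 9 * (x ^ 2 + y ^ 2 + z ^ 2) - (h + x + y + z)) % 2 = 0 := by
          have sq : ∀ t : ℤ, (t ^ 2 - t) % 2 = 0 := by
            intro t
            rcases Int.emod_two_eq_zero_or_one t with h | h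
            · obtain ⟨u, rfl⟩ := Int.dvd_of_emod_eq_zero h
              have : (2 * u) ^ 2 - 2 * u = 2 * (2 * u ^ 2 - u) := by ring
              rw [this]; omega
            · obtain ⟨u, hu⟩ : ∃ u, t = 2 * u + 1 := ⟨t / 2, by omega⟩
              rw [hu]
              have : (2 * u + 1) ^ 2 - (2 * u + 1) = 2 * (2 * u ^ 2 + u) := by ring
              rw [this]; omega
          have a1 := sq h
          have a2 := sq x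
          have a3 := sq y
          have a4 := sq z
          omega
        rw [← hν] at h2
        omega
      obtain ⟨o1, o2, o3, o4⟩ := ho
      obtain ⟨a', rfl⟩ : ∃ u, a = 2 * u + 1 := ⟨a / 2, by omega⟩
      obtain ⟨X', rfl⟩ : ∃ u, X = 2 * u + 1 := ⟨X / 2, by omega⟩
      obtain ⟨Y', rfl⟩ : ∃ u, Y = 2 * u + 1 := ⟨Y / 2, by omega⟩
      obtain ⟨Z', rfl⟩ : ∃ u, Z = 2 * u + 1 := ⟨Z / 2, by omega⟩
      obtain ⟨D', rfl⟩ : ∃ u, D = 2 * u + 1 := ⟨D / 2, by omega⟩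
      have e2 : (1 + 5 * k) + 2 * (D' * (1 + 5 * k)) =
          (h + x + y + z) + 2 * (h * a' + x * X' + y * Y' + z * Z') := by linarith
      omega
    omega
  · have e : D * (1 + 5 * k) = h * a + (x * X + y * Y + z * Z) := by linarith
    set s := 1 + 5 * k
    set t := x * X + y * Y + z * Z with ht
    have hcs : t ^ 2 ≤ (x ^ 2 + y ^ 2 + z ^ 2) * (X ^ 2 + Y ^ 2 + Z ^ 2) := by
      rw [ht]
      nlinarith [sq_nonneg (x * Y - y * X), sq_nonneg (x * Z - z * X), sq_nonneg (y * Z - z * Y)]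
    rw [hrow] at hcs
    have h9 : 9 * (x ^ 2 + y ^ 2 + z ^ 2) = ν - h ^ 2 := by linarith
    have hcs2 : t ^ 2 ≤ (ν - h ^ 2) * (q - a ^ 2) := by
      calc t ^ 2 ≤ (x ^ 2 + y ^ 2 + z ^ 2) * (9 * (q - a ^ 2)) := hcs
        _ = (9 * (x ^ 2 + y ^ 2 + z ^ 2)) * (q - a ^ 2) := by ring
        _ = _ := by rw [h9]
    have hν0 : 0 ≤ ν := by rw [hν]; positivity
    have hlt : t ^ 2 < (h * a) ^ 2 := by
      have h1 : ν * (q - a ^ 2) ≤ ν * (q - 1) := mul_le_mul_of_nonneg_left (by linarith) hν0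
      have h2 : (ν - h ^ 2) * (q - a ^ 2) = ν * (q - a ^ 2) - q * h ^ 2 + (h * a) ^ 2 := by ring
      linarith
    have habs : |t| < |h * a| := sq_lt_sq.1 hlt
    have hha : 0 < (h * a) * (D * s) := by
      rw [e]
      have h1 : |(h * a) * t| < (h * a) ^ 2 := by
        rw [abs_mul, ← sq_abs (h * a), sq]
        exact mul_lt_mul_of_pos_left habs (lt_of_le_of_lt (abs_nonneg t) habs)
      have h2 := neg_abs_le ((h * a) * t)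
      have h3 : h * a * (h * a + t) = (h * a) ^ 2 + (h * a) * t := by ring
      rw [h3]
      linarith
    have h4 : (h * a) * (D * s) = (h * D) * (a * s) := by ring
    rw [h4] at hha
    exact (pos_iff_pos_of_mul_pos hha).1 (by positivity)

/-- From four integers to the representation. -/
theorem rep_of_four {n : ℕ} {s0 s1 s2 s3 : ℤ} (hs : s0 ^ 2 + s1 ^ 2 + s2 ^ 2 + s3 ^ 2 = 40 * n + 4)
    (h0 : s0 % 10 = 1) (h1 : s1 % 10 = 1) (h2 : s2 % 10 = 1) (h3 : s3 % 10 = 1)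
    (p0 : s0 < 0) (p1 : s1 < 0) (p2 : 0 < s2) (p3 : 0 < s3) : Rep n := by
  obtain ⟨w, hw⟩ : ∃ w : ℕ, s0 = 1 - 10 * (w : ℤ) := ⟨((1 - s0) / 10).toNat, by omega⟩
  obtain ⟨x, hx⟩ : ∃ w : ℕ, s1 = 1 - 10 * (w : ℤ) := ⟨((1 - s1) / 10).toNat, by omega⟩
  obtain ⟨y, hy⟩ : ∃ w : ℕ, s2 = 1 + 10 * (w : ℤ) := ⟨((s2 - 1) / 10).toNat, by omega⟩
  obtain ⟨z, hz⟩ : ∃ w : ℕ, s3 = 1 + 10 * (w : ℤ) := ⟨((s3 - 1) / 10).toNat, by omega⟩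
  have hfz : ∀ w : ℕ, 2 * (f w : ℤ) = w * (5 * w - 1) := by
    intro w
    have h := two_f w
    rcases Nat.eq_zero_or_pos w with h0 | h0
    · subst h0; simp [f]
    · have h5 : ((5 * w - 1 : ℕ) : ℤ) = 5 * (w : ℤ) - 1 := by
        rw [Nat.cast_sub (by omega)]; push_cast; ring
      rw [← h5]
      exact_mod_cast h
  have hgz : ∀ w : ℕ, 2 * (g w : ℤ) = w * (5 * w + 1) := by
    intro w
    have h : 2 * g w = w * (5 * w + 1) := by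
      unfold g
      apply Nat.mul_div_cancel'
      rcases Nat.even_or_odd w with h | h
      · exact (h.two_dvd).mul_right _
      · obtain ⟨k, rfl⟩ := h
        apply Dvd.dvd.mul_left
        exact ⟨5 * k + 3, by omega⟩
    exact_mod_cast h
  refine ⟨w, x, y, z, ?_⟩
  have e1 := hfz w
  have e2 := hfz x
  have e3 := hgz y
  have e4 := hgz z
  rw [hw, hx, hy, hz] at hs
  have : (2 : ℤ) * (n : ℤ) = 2 * (f w + f x + g y + g z : ℤ) := by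
    linarith
  have h5 : (n : ℤ) = ((f w + f x + g y + g z : ℕ) : ℤ) := by push_cast; linarith
  exact_mod_cast h5

theorem sq_neg_one {a : ℤ} (h : a ≤ -1) : 1 ≤ a ^ 2 := by nlinarith
theorem sq_one {a : ℤ} (h : 1 ≤ a) : 1 ≤ a ^ 2 := by nlinarith

theorem of_hit {w : Wit} {q D h x y z ν : ℤ} {n : ℕ} (hw : w.val q) (hD : 0 < D) (hDo : D % 2 = 1)
    (hh : 0 < h) (hν : ν = h ^ 2 + 9 * (x ^ 2 + y ^ 2 + z ^ 2)) (hνo : ν % 2 = 1)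
    (hbig : ν * (q - 1) < q * h ^ 2) (hq : q * ν = (40 * n + 4) * D ^ 2) (hit : w.hit D h x y z) :
    Rep n := by
  obtain ⟨⟨A1, A2, A3, A4⟩, ⟨B1, B2, B3, B4, B5, B6⟩, ⟨C0, C1, C2, C3⟩, ⟨S0, S1, S2, S3⟩, O0, O1, O2, O3⟩ := hw
  obtain ⟨H0, H1, H2, H3⟩ := hit
  obtain ⟨s0, e0, m0, p0⟩ := coord hD hDo hh hν hνo hbig C0 (sq_neg_one S0) O0 H0
  obtain ⟨s1, e1, m1, p1⟩ := coord hD hDo hh hν hνo hbig C1 (sq_neg_one S1) O1 H1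
  obtain ⟨s2, e2, m2, p2⟩ := coord hD hDo hh hν hνo hbig C2 (sq_one S2) O2 H2
  obtain ⟨s3, e3, m3, p3⟩ := coord hD hDo hh hν hνo hbig C3 (sq_one S3) O3 H3
  refine rep_of_four (s0 := s0) (s1 := s1) (s2 := s2) (s3 := s3) ?_ m0 m1 m2 m3 ?_ ?_ ?_ ?_
  · have h1 : D ^ 2 * (s0 ^ 2 + s1 ^ 2 + s2 ^ 2 + s3 ^ 2) = D ^ 2 * (40 * n + 4) := by
      have : D ^ 2 * (s0 ^ 2 + s1 ^ 2 + s2 ^ 2 + s3 ^ 2) =
          (D * s0) ^ 2 + (D * s1) ^ 2 + (D * s2) ^ 2 + (D * s3) ^ 2 := by ring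
      rw [this, e0, e1, e2, e3]
      have e : (h * w.a0 + x * w.x0 + y * w.y0 + z * w.z0) ^ 2 + (h * w.a1 + x * w.x1 + y * w.y1 + z * w.z1) ^ 2
          + (h * w.a2 + x * w.x2 + y * w.y2 + z * w.z2) ^ 2 + (h * w.a3 + x * w.x3 + y * w.y3 + z * w.z3) ^ 2
          = h ^ 2 * (w.a0 ^ 2 + w.a1 ^ 2 + w.a2 ^ 2 + w.a3 ^ 2)
          + x ^ 2 * (w.x0 ^ 2 + w.x1 ^ 2 + w.x2 ^ 2 + w.x3 ^ 2)
          + y ^ 2 * (w.y0 ^ 2 + w.y1 ^ 2 + w.y2 ^ 2 + w.y3 ^ 2)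
          + z ^ 2 * (w.z0 ^ 2 + w.z1 ^ 2 + w.z2 ^ 2 + w.z3 ^ 2)
          + 2 * h * x * (w.a0 * w.x0 + w.a1 * w.x1 + w.a2 * w.x2 + w.a3 * w.x3)
          + 2 * h * y * (w.a0 * w.y0 + w.a1 * w.y1 + w.a2 * w.y2 + w.a3 * w.y3)
          + 2 * h * z * (w.a0 * w.z0 + w.a1 * w.z1 + w.a2 * w.z2 + w.a3 * w.z3)
          + 2 * x * y * (w.x0 * w.y0 + w.x1 * w.y1 + w.x2 * w.y2 + w.x3 * w.y3)
          + 2 * x * z * (w.x0 * w.z0 + w.x1 * w.z1 + w.x2 * w.z2 + w.x3 * w.z3)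
          + 2 * y * z * (w.y0 * w.z0 + w.y1 * w.z1 + w.y2 * w.z2 + w.y3 * w.z3) := by ring
      rw [e, A1, A2, A3, A4, B1, B2, B3, B4, B5, B6]
      have : D ^ 2 * (40 * (n : ℤ) + 4) = q * ν := by rw [hq]; ring
      rw [this, hν]
      ring
    exact mul_left_cancel₀ (by positivity) h1
  · by_contra hc
    have := mul_nonpos_of_nonpos_of_nonneg (show w.a0 ≤ 0 by linarith) (not_lt.1 hc)
    linarith
  · by_contra hc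
    have := mul_nonpos_of_nonpos_of_nonneg (show w.a1 ≤ 0 by linarith) (not_lt.1 hc)
    linarith
  · by_contra hc
    have := mul_nonpos_of_nonneg_of_nonpos (show 0 ≤ w.a2 by linarith) (not_lt.1 hc)
    linarith
  · by_contra hc
    have := mul_nonpos_of_nonneg_of_nonpos (show 0 ≤ w.a3 by linarith) (not_lt.1 hc)
    linarith

end Pool.Agent.H87.Pent
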